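import Pool.Agent.Run7.h168.Lin.Form

/-!
# Digits described piece by piece
-/

set_option autoImplicit false

namespace Pool.Agent.Run7.h168.Lin

open Finset Polynomial Pool.Agent.R356 Pool.Agent.R473.JC Pool.Agent.TH456.TM Pool.Agent.Run7.h168.Mult

/-- the terms `d_(u+1), …, d_v` are terms of a sequence `s` of base `b` digits, and there is a relation of degree
`≤ r` with coefficients of degree `≤ k + r u` for the first `v` terms of `s` -/
def Desc (b : ℕ) (d : ℕ → ℤ) (r k u v : ℕ) : Prop :=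
  ∃ s : ℕ → ℤ, (∀ l, 0 ≤ s l ∧ s l < b) ∧ (∀ l, u < l → l ≤ v → s l = d l) ∧ AlgRelation s r v (k + r * u)

/-- there is a set `T` of at most `K` places such that the terms `d_(u+1), …, d_v` are described with the
parameter `k`, whenever none of their places is in `T` -/
def Cuts (b : ℕ) (d : ℕ → ℤ) (r K L k : ℕ) : Prop :=
  ∃ T : Finset ℕ, T.card ≤ K ∧ ∀ u v, u ≤ v → v ≤ L → (∀ t ∈ T, t ≤ u ∨ v < t) → Desc b d r k u v

lemma cuts_self (b : ℕ) (d : ℕ → ℤ) (hd : ∀ l, 0 ≤ d l ∧ d l < b) (r K L : ℕ) : Cuts b d r K L (L + 1) := by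
  refine ⟨∅, by simp, fun u v huv hv _ => ⟨d, hd, fun _ _ _ => rfl, C (X ^ (L + 1)), ?_, ?_, ?_, ?_⟩⟩
  · rw [Ne, C_eq_zero]
    exact pow_ne_zero _ X_ne_zero
  · rw [natDegree_C]; exact Nat.zero_le _
  · intro j
    rw [coeff_C]
    split_ifs
    · rw [natDegree_X_pow]; omega
    · rw [natDegree_zero]; omega
  · rw [eval_C]
    exact pow_dvd_pow _ (by omega)

/-- the least parameter -/
noncomputable def cutC (b : ℕ) (d : ℕ → ℤ) (r K L : ℕ) : ℕ := sInf {k | Cuts b d r K L k}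

lemma cutC_mem (b : ℕ) (d : ℕ → ℤ) (hd : ∀ l, 0 ≤ d l ∧ d l < b) (r K L : ℕ) :
    Cuts b d r K L (cutC b d r K L) :=
  Nat.sInf_mem (s := {k | Cuts b d r K L k}) ⟨L + 1, cuts_self b d hd r K L⟩

/-- a description gives an integer polynomial -/
theorem good_of_desc (r : ℕ) : ∃ a : ℝ, 1 ≤ a ∧ ∀ y : ℝ, |y| ≤ 1 → ∀ b : ℕ, 2 ≤ b → ∀ d : ℕ → ℤ,
    (∀ l, 1 ≤ l → Pool.Agent.W472.AC.digit b y l = d l) → ∀ k L t : ℕ, t ≤ L → Desc b d r k t L →
    Good a y r b k L t := by
  obtain ⟨A, hA, hpol⟩ := poly_of_rel_unif r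
  refine ⟨A * (r + 1), by nlinarith [(Nat.cast_nonneg r : (0 : ℝ) ≤ r)], ?_⟩
  intro y hy b hb d hd k L t ht hdesc
  obtain ⟨s, hs, hsd, hrel⟩ := hdesc
  obtain ⟨P, hP0, hPd, hPc, hPv⟩ := hpol y hy b hb L (k + r * t) t ht s hs
    (fun l hl hl' => (hsd l hl hl').trans (hd l (by omega)).symm) (arel_of_algRelation _ _ _ _ hrel)
  have hr0 : (0 : ℝ) ≤ r := Nat.cast_nonneg r
  have hk0 : (0 : ℝ) ≤ k := Nat.cast_nonneg k
  have ht0 : (0 : ℝ) ≤ t := Nat.cast_nonneg t
  have hlb := half_lt_log hb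
  have hlL : 0 ≤ Real.log ((L : ℝ) + 1) := Real.log_nonneg (by linarith [(Nat.cast_nonneg L : (0 : ℝ) ≤ L)])
  have hle : A * ((((k + r * t : ℕ) : ℝ) + 1 + t) * Real.log b + Real.log (L + 1)) ≤
      A * (r + 1) * ((k + 1 + t) * Real.log b + Real.log (L + 1)) := by
    rw [mul_assoc]
    refine mul_le_mul_of_nonneg_left ?_ (by linarith)
    push_cast
    have h1 : ((k : ℝ) + r * t + 1 + t) * Real.log b ≤ (r + 1) * ((k + 1 + t) * Real.log b) := by
      rw [← mul_assoc]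
      refine mul_le_mul_of_nonneg_right ?_ (by linarith)
      nlinarith
    have h2 : Real.log ((L : ℝ) + 1) ≤ (r + 1) * Real.log ((L : ℝ) + 1) := by nlinarith
    linarith
  exact ⟨P, hP0, hPd, fun i => (hPc i).trans (Real.exp_le_exp.2 hle), hPv.trans (Real.exp_le_exp.2 (by linarith))⟩

variable {κ : Type} [Fintype κ]

/-- **Digits described piece by piece.** -/
theorem cutsH (S : (κ → ℝ) → ℝ → Prop) (hS : JointH S) (hS1 : ∀ u h, S u h → ∀ i, |u i| ≤ 1) (r : ℕ) :
    ∃ A : ℝ, 1 ≤ A ∧ ∀ (u : κ → ℝ) (h : ℝ), S u h → 1 ≤ h → ∀ b : κ → ℕ, (∀ i, 2 ≤ b i) → ∀ K L k : κ → ℕ,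
      ∀ d : κ → ℕ → ℤ, (∀ i l, 1 ≤ l → Pool.Agent.W472.AC.digit (b i) (u i) l = d i l) →
      (∀ i, Cuts (b i) (d i) r (K i) (L i) (k i)) → ∀ M : ℝ, (∀ i, M ≤ L i * Real.log (b i)) →
      M ≤ A ^ (∑ i, K i + 1) * (∑ i, (k i + 1) * Real.log (b i) + Real.log h) := by
  classical
  obtain ⟨a, ha1, hgood⟩ := good_of_desc r
  obtain ⟨A, hA, hmain⟩ := piecesH S hS r a ha1
  refine ⟨A, hA, fun u h hSu hh b hb K L k d hd hcuts M hM => ?_⟩
  choose T hTK hT using hcuts
  refine hmain u h hSu hh b hb (∑ i, K i) L k T ?_ ?_ M hM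
  · exact Finset.sum_le_sum fun i _ => (Finset.card_filter_le _ _).trans (hTK i)
  · intro i L' t hL' ht hTt
    refine hgood (u i) (hS1 u h hSu i) (b i) (hb i) (d i) (hd i) (k i) L' t ht (hT i t L' ht hL' fun t' ht' => ?_)
    rcases le_or_gt t' L' with h1 | h1
    · exact Or.inl (hTt t' ht' h1)
    · exact Or.inr h1

lemma digit_fract (b : ℕ) (y : ℝ) (l : ℕ) (hl : 1 ≤ l) :
    Pool.Agent.W472.AC.digit b (Int.fract y) l = digit b y l := by
  obtain ⟨l', rfl⟩ := Nat.exists_eq_succ_of_ne_zero (by omega : l ≠ 0)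
  unfold Pool.Agent.W472.AC.digit digit
  have h3 : y * (b : ℝ) ^ (l' + 1) = Int.fract y * (b : ℝ) ^ (l' + 1) + ((⌊y⌋ * b ^ (l' + 1) : ℤ) : ℝ) := by
    have h4 : y = Int.fract y + ⌊y⌋ := (Int.fract_add_floor _).symm
    push_cast
    calc y * (b : ℝ) ^ (l' + 1) = (Int.fract y + ⌊y⌋) * (b : ℝ) ^ (l' + 1) := by rw [← h4]
      _ = _ := by ring
  rw [Nat.succ_eq_add_one, h3, Int.floor_add_intCast, pow_succ (b : ℤ), ← mul_assoc, Int.add_mul_emod_self_right]

/-- **Digits of integer linear forms, piece by piece.** -/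
theorem cuts_lin (x : ℝ) (hx : MeasT (x : ℂ)) (n r : ℕ) : ∃ A : ℝ, 1 ≤ A ∧
    ∀ (a : Matrix (Fin (n + 1)) (Fin (n + 1)) ℤ) (t : Fin n → ℝ) (c m : Fin (n + 1) → ℤ) (H : ℝ), a.det ≠ 0 →
      (∀ i j, |(a i j : ℝ)| ≤ H) → (∀ i, 1 ≤ m i ∧ (m i : ℝ) ≤ H) →
      ∀ y : Fin (n + 1) → ℝ, (∀ i, y i = (a i 0 * x + ∑ j : Fin n, a i j.succ * t j + c i) / m i) →
      ∀ b : Fin (n + 1) → ℕ, (∀ i, 2 ≤ b i) → ∀ K L : Fin (n + 1) → ℕ, ∀ M : ℝ,
      (∀ i, M ≤ L i * Real.log (b i)) →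
      M ≤ A ^ (∑ i, K i + 1) *
        (∑ i, (cutC (b i) (digit (b i) (y i)) r (K i) (L i) + 1) * Real.log (b i) + Real.log H) := by
  classical
  obtain ⟨A, hA, hmain⟩ := cutsH (Fam x n) (jointH_fam x hx n)
    (fun u h hS => by obtain ⟨_, _, _, _, _, _, _, _, h1, _⟩ := hS; exact h1) r
  refine ⟨A, hA, ?_⟩
  intro a t c m H hdet haH hm y hy b hb K L M hM
  have hH1 : 1 ≤ H := by
    have h1 := hm 0
    have h2 : (1 : ℝ) ≤ m 0 := by exact_mod_cast h1.1
    exact h2.trans h1.2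
  have hm0 : ∀ i, (m i : ℝ) ≠ 0 := fun i => by
    have h1 : (1 : ℝ) ≤ m i := by exact_mod_cast (hm i).1
    linarith
  have hfr : ∀ z : ℝ, |Int.fract z| ≤ 1 := fun z => by
    rw [abs_of_nonneg (Int.fract_nonneg z)]
    exact (Int.fract_lt_one z).le
  have hS : Fam x n (fun i => Int.fract (y i)) H := by
    refine ⟨a, fun j => Int.fract (t j), fun i => c i + ∑ j : Fin n, a i j.succ * ⌊t j⌋ - m i * ⌊y i⌋, m, hdet, haH, hm,
      fun j => hfr _, fun i => hfr _, fun i => ?_⟩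
    have h1 : (m i : ℝ) * y i = a i 0 * x + ∑ j : Fin n, a i j.succ * t j + c i := by
      rw [hy i]
      field_simp [hm0 i]
    have h2 : ∑ j : Fin n, (a i j.succ : ℝ) * t j =
        ∑ j : Fin n, (a i j.succ : ℝ) * Int.fract (t j) + ∑ j : Fin n, (a i j.succ : ℝ) * ⌊t j⌋ := by
      rw [← Finset.sum_add_distrib]
      refine Finset.sum_congr rfl fun j _ => ?_
      rw [← mul_add, Int.fract_add_floor]
    have h3 : Int.fract (y i) = y i - ⌊y i⌋ := rfl
    show (m i : ℝ) * Int.fract (y i) = (a i 0 : ℝ) * x + ∑ j : Fin n, (a i j.succ : ℝ) * Int.fract (t j) +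
      ((c i + ∑ j : Fin n, a i j.succ * ⌊t j⌋ - m i * ⌊y i⌋ : ℤ) : ℝ)
    rw [h3]
    push_cast
    rw [mul_sub, h1, h2]
    ring
  have hdig : ∀ i l, 0 ≤ digit (b i) (y i) l ∧ digit (b i) (y i) l < b i := by
    intro i l
    have h1 : (0 : ℤ) < b i := by have := hb i; omega
    exact ⟨Int.emod_nonneg _ h1.ne', Int.emod_lt_of_pos _ h1⟩
  exact hmain _ H hS hH1 b hb K L (fun i => cutC (b i) (digit (b i) (y i)) r (K i) (L i)) (fun i => digit (b i) (y i))
    (fun i l hl => digit_fract (b i) (y i) l hl) (fun i => cutC_mem _ _ (hdig i) r (K i) (L i)) M hM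

/-- a sequence with a period -/
lemma algRelation_periodic (s : ℕ → ℤ) (p : ℕ) (hp : 1 ≤ p) (hs : ∀ l, s (l + p) = s l) (r : ℕ) (hr : 1 ≤ r) (L k : ℕ)
    (hk : p ≤ k) : AlgRelation s r L k := by
  -- `(1 - X^p) S(X)` is a polynomial of degree `≤ p` modulo `X^(L+1)`
  obtain ⟨R, hR⟩ : ∃ R : ℚ[X], R = ∑ l ∈ Finset.Icc 1 p, C (s l : ℚ) * X ^ l := ⟨_, rfl⟩
  refine ⟨C (1 - X ^ p) * X - C R, ?_, ?_, ?_, ?_⟩
  · intro h0
    have h1 := congrArg (fun f : ℚ[X][X] => f.coeff 1) h0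
    simp only [coeff_sub, coeff_C_mul, coeff_X_one, mul_one, coeff_zero, coeff_C_succ, sub_zero] at h1
    have h2 := congrArg (fun f : ℚ[X] => f.coeff 0) h1
    simp only [coeff_sub, coeff_one_zero, coeff_zero, coeff_X_pow, if_neg (by omega : ¬ (0 = p)), sub_zero] at h2
    exact one_ne_zero h2
  · refine (natDegree_sub_le _ _).trans (max_le ?_ ?_)
    · exact (natDegree_C_mul_le _ _).trans (natDegree_X_le.trans hr)
    · rw [natDegree_C]; exact Nat.zero_le _
  · intro j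
    rw [coeff_sub, coeff_C_mul, coeff_X, coeff_C]
    have h1 : (1 - X ^ p : ℚ[X]).natDegree ≤ k := by
      refine (natDegree_sub_le _ _).trans (max_le ?_ ?_)
      · simp
      · rw [natDegree_X_pow]; exact hk
    have h2 : R.natDegree ≤ k := by
      rw [hR]
      refine natDegree_sum_le_of_forall_le _ _ fun l hl => ?_
      rw [Finset.mem_Icc] at hl
      exact (natDegree_C_mul_X_pow_le _ _).trans (hl.2.trans hk)
    refine (natDegree_sub_le _ _).trans (max_le ?_ ?_)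
    · split_ifs
      · rw [mul_one]; exact h1
      · rw [mul_zero, natDegree_zero]; exact Nat.zero_le _
    · split_ifs
      · exact h2
      · rw [natDegree_zero]; exact Nat.zero_le _
  · rw [eval_sub, eval_mul, eval_C, eval_C, eval_X, X_pow_dvd_iff]
    intro d hd
    have hc : ∀ j, (seqPoly s L).coeff j = if 1 ≤ j ∧ j ≤ L then (s j : ℚ) else 0 := by
      intro j
      unfold seqPoly
      rw [finsetSum_coeff]
      simp only [coeff_C_mul, coeff_X_pow, mul_ite, mul_one, mul_zero]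
      rw [Finset.sum_ite_eq]
      simp only [Finset.mem_Icc]
    have hc2 : R.coeff d = if 1 ≤ d ∧ d ≤ p then (s d : ℚ) else 0 := by
      rw [hR, finsetSum_coeff]
      simp only [coeff_C_mul, coeff_X_pow, mul_ite, mul_one, mul_zero]
      rw [Finset.sum_ite_eq]
      simp only [Finset.mem_Icc]
    rw [coeff_sub, sub_mul, one_mul, coeff_sub, hc2, mul_comm (X ^ p : ℚ[X]), coeff_mul_X_pow']
    rcases Nat.lt_trichotomy p d with h1 | h1 | h1
    · have e1 := hc d
      have e2 := hc (d - p)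
      rw [if_pos ⟨by omega, by omega⟩] at e1 e2
      have h3 := hs (d - p)
      rw [Nat.sub_add_cancel h1.le] at h3
      rw [if_pos h1.le, if_neg (by omega), e1, e2, h3]
      ring
    · have e1 := hc d
      have e2 := hc (d - p)
      rw [if_pos ⟨by omega, by omega⟩] at e1
      rw [if_neg (by omega)] at e2
      rw [if_pos h1.le, if_pos ⟨by omega, by omega⟩, e1, e2]
      ring
    · rcases Nat.eq_zero_or_pos d with h2 | h2
      · have e1 := hc d
        rw [if_neg (by omega)] at e1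
        rw [if_neg (by omega), if_neg (by omega), e1]
        ring
      · have e1 := hc d
        rw [if_pos ⟨by omega, by omega⟩] at e1
        rw [if_neg (by omega), if_pos ⟨by omega, by omega⟩, e1]
        ring

/-- A copy of a part of the digits which starts earlier is free. -/
lemma desc_of_copy (b : ℕ) (d : ℕ → ℤ) (hd : ∀ l, 0 ≤ d l ∧ d l < b) (r : ℕ) (hr : 1 ≤ r) (p u v : ℕ) (hp : 1 ≤ p)
    (hpu : p ≤ u) (h : ∀ l, u < l → l ≤ v → d l = d (l - p)) (k : ℕ) : Desc b d r k u v := by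
  obtain ⟨w, hw⟩ : ∃ w : ℕ, w = u + 1 - p := ⟨_, rfl⟩
  have hp0 : (0 : ℤ) < p := by omega
  obtain ⟨s, hs⟩ : ∃ s : ℕ → ℤ, s = fun l : ℕ => d (w + (((l : ℤ) - w) % p).toNat) := ⟨_, rfl⟩
  have hper : ∀ l, s (l + p) = s l := by
    intro l
    rw [hs]
    show d (w + ((((l + p : ℕ) : ℤ) - w) % p).toNat) = d (w + (((l : ℤ) - w) % p).toNat)
    have h1 : (((l + p : ℕ) : ℤ) - w) % p = ((l : ℤ) - w) % p := by
      push_cast
      rw [show (l : ℤ) + p - w = (l - w) + p by ring, Int.add_emod_right]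
    rw [h1]
  have hag : ∀ l, w ≤ l → l ≤ v → s l = d l := by
    intro l
    induction l using Nat.strong_induction_on with
    | _ l ih =>
      intro h1 h2
      rcases le_or_gt l u with h3 | h3
      · rw [hs]
        show d (w + (((l : ℤ) - w) % p).toNat) = d l
        have h4 : ((l : ℤ) - w) % p = (l : ℤ) - w := Int.emod_eq_of_lt (by omega) (by omega)
        rw [h4]
        congr 1
        omega
      · have h4 := ih (l - p) (by omega) (by omega) (by omega)
        rw [h l h3 h2, ← h4, ← hper (l - p), Nat.sub_add_cancel (by omega)]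
  refine ⟨s, fun l => ?_, fun l h1 h2 => hag l (by omega) h2, algRelation_periodic s p hp hper r hr v _ ?_⟩
  · rw [hs]; exact hd _
  · nlinarith

/-- Digits with at most `K` changes are described with at most `K` exceptional places. -/
lemma cutC_le_complexity (b : ℕ) (hb : 2 ≤ b) (y : ℝ) (r K L : ℕ) :
    cutC b (digit b y) r K L ≤ complexity b y r K L := by
  classical
  obtain ⟨s, ⟨hs, hK⟩, hrel⟩ := complexity_mem b hb y r K L
  have hfin : {l : ℕ | 1 ≤ l ∧ l ≤ L ∧ s l ≠ digit b y l}.Finite :=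
    (Finset.finite_toSet (Finset.range (L + 1))).subset fun l hl => by
      simp only [Finset.coe_range, Set.mem_Iio]
      have := hl.2.1
      omega
  refine Nat.sInf_le ⟨hfin.toFinset, ?_, fun u v huv hv hT => ⟨s, hs, fun l h1 h2 => ?_, ?_⟩⟩
  · rw [← Set.ncard_eq_toFinset_card _ hfin]; exact hK
  · by_contra hcon
    rcases hT l (by rw [Set.Finite.mem_toFinset]; exact ⟨by omega, h2.trans hv, hcon⟩) with h3 | h3 <;> omega
  · obtain ⟨P, hP0, hPr, hPk, hX⟩ := hrel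
    refine ⟨P, hP0, hPr, fun j => (hPk j).trans (Nat.le_add_right _ _), ?_⟩
    -- truncation
    have h1 : seqPoly s L - seqPoly s v = X ^ (v + 1) * ∑ l ∈ Finset.Icc (v + 1) L, C (s l : ℚ) * X ^ (l - (v + 1)) := by
      have h2 : seqPoly s L = seqPoly s v + ∑ l ∈ Finset.Icc (v + 1) L, C (s l : ℚ) * X ^ l := by
        unfold seqPoly
        rw [← Finset.sum_union]
        · congr 1
          ext l
          simp only [Finset.mem_Icc, Finset.mem_union]
          omega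
        · rw [Finset.disjoint_left]
          intro l h3 h4
          rw [Finset.mem_Icc] at h3 h4
          omega
      rw [h2, add_sub_cancel_left, Finset.mul_sum]
      refine Finset.sum_congr rfl fun l hl => ?_
      rw [Finset.mem_Icc] at hl
      rw [mul_left_comm, ← pow_add]
      congr 2
      omega
    have h2 : seqPoly s L - seqPoly s v ∣ P.eval (seqPoly s L) - P.eval (seqPoly s v) := sub_dvd_eval_sub _ _ _
    have h3 : X ^ (v + 1) ∣ P.eval (seqPoly s L) - P.eval (seqPoly s v) :=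
      (Dvd.intro _ h1.symm).trans h2
    have h4 : X ^ (v + 1) ∣ P.eval (seqPoly s L) := (pow_dvd_pow _ (by omega)).trans hX
    have h5 := dvd_sub h4 h3
    rwa [sub_sub_cancel] at h5

end Pool.Agent.Run7.h168.Lin
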