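import Pool.Agent.Run7.h168.Mult.Dig
import Pool.Agent.Run7.h168.Lin.Est

/-!
# Digits of several numbers with a joint measure which depends on a size; pieces
-/

set_option autoImplicit false

namespace Pool.Agent.Run7.h168.Lin

open Finset Polynomial Pool.Agent.R356 Pool.Agent.Run7.h168.Mult

/-- joint transcendence measure, uniform for a family of tuples `u` of sizes `h` -/
def JointH {κ : Type} (S : (κ → ℝ) → ℝ → Prop) : Prop :=
  ∀ D : ℕ, ∃ c C : ℝ, 0 < c ∧ 0 < C ∧ ∀ (u : κ → ℝ) (h : ℝ), S u h → 1 ≤ h →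
    ∀ P : κ → ℤ[X], (∀ i, P i ≠ 0) → (∀ i, (P i).natDegree ≤ D) →
    ∀ H : ℝ, (∀ i k, |(((P i).coeff k : ℤ) : ℝ)| ≤ H) → ∃ i, C * (h * H) ^ (-c) ≤ |aeval (u i) (P i)|

/-- there is an integer polynomial of degree `≤ r`, with coefficients `≤ exp(A((k+1+t) log b + log(L+1)))`,
whose value at `u` is `≤ exp(A((k+1+t) log b + log(L+1)) - L log b)` -/
def Good (A : ℝ) (u : ℝ) (r b k L t : ℕ) : Prop :=
  ∃ P : ℤ[X], P ≠ 0 ∧ P.natDegree ≤ r ∧
    (∀ i, |((P.coeff i : ℤ) : ℝ)| ≤ Real.exp (A * ((k + 1 + t) * Real.log b + Real.log (L + 1)))) ∧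
    |(aeval u P : ℝ)| ≤ Real.exp (A * ((k + 1 + t) * Real.log b + Real.log (L + 1)) - L * Real.log b)

variable {κ : Type} [Fintype κ]

/-- One scale. -/
theorem lastH (S : (κ → ℝ) → ℝ → Prop) (hS : JointH S) (r : ℕ) (a : ℝ) (ha1 : 1 ≤ a) : ∃ A : ℝ, 1 ≤ A ∧
    ∀ (u : κ → ℝ) (h : ℝ), S u h → 1 ≤ h → ∀ b : κ → ℕ, (∀ i, 2 ≤ b i) → ∀ L k t : κ → ℕ,
      (∀ i, Good a (u i) r (b i) (k i) (L i) (t i)) → ∀ M : ℝ, 0 ≤ M →
      (∀ i, L i * Real.log (b i) ≤ M) → (∀ i, M ≤ L i * Real.log (b i) + Real.log (b i)) →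
      M ≤ A * (∑ i, (k i + 1 + t i) * Real.log (b i) + Real.log h) := by
  classical
  obtain ⟨c, C, hc, hC, hj⟩ := hS r
  obtain ⟨g, hg⟩ : ∃ g : ℝ, g = a * (1 + c) := ⟨_, rfl⟩
  have hg1 : 1 ≤ g := by rw [hg]; nlinarith
  have hcg : c ≤ g := by rw [hg]; nlinarith
  obtain ⟨n, hn⟩ : ∃ n : ℝ, n = Fintype.card κ := ⟨_, rfl⟩
  have hn0 : 0 ≤ n := by rw [hn]; positivity
  obtain ⟨N, hN⟩ : ∃ N : ℝ, N = 4 * g * (n + 1) := ⟨_, rfl⟩
  have hN1 : 1 ≤ N := by rw [hN]; nlinarith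
  have hN0 : 0 < N := by linarith
  have hlN : 0 ≤ Real.log N := Real.log_nonneg hN1
  have hgn : 0 ≤ g * n * Real.log N := by positivity
  refine ⟨2 * g + 3 + 4 * (g * n * Real.log N) + 4 * |Real.log C|, by linarith [abs_nonneg (Real.log C)], ?_⟩
  intro u h hSu hh b hb L k t hgood M hM0 hML hML'
  choose P hP0 hPd hPc hPv using hgood
  obtain ⟨lb, hlb⟩ : ∃ lb : κ → ℝ, lb = fun i => Real.log (b i) := ⟨_, rfl⟩
  have hlbe : ∀ i, Real.log (b i) = lb i := fun i => by rw [hlb]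
  have hlb2 : ∀ i, 1 / 2 < lb i := fun i => by rw [hlb]; exact half_lt_log (hb i)
  obtain ⟨lL, hlL⟩ : ∃ lL : κ → ℝ, lL = fun i => Real.log ((L i : ℝ) + 1) := ⟨_, rfl⟩
  have hlLe : ∀ i, Real.log ((L i : ℝ) + 1) = lL i := fun i => by rw [hlL]
  obtain ⟨lh, hlh⟩ : ∃ lh : ℝ, lh = Real.log h := ⟨_, rfl⟩
  have hlh0 : 0 ≤ lh := by rw [hlh]; exact Real.log_nonneg hh
  rw [← hlh]
  have hhe : h = Real.exp lh := by rw [hlh, Real.exp_log (by linarith)]
  simp only [hlbe, hlLe] at hPc hPv hML hML' ⊢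
  have hL0 : ∀ i, (0 : ℝ) ≤ L i := fun i => Nat.cast_nonneg _
  have hlL0 : ∀ i, 0 ≤ lL i := fun i => by rw [hlL]; exact Real.log_nonneg (by linarith [hL0 i])
  have hR0 : ∀ i, 0 ≤ ((k i : ℝ) + 1 + t i) * lb i := fun i => by
    have := hlb2 i
    positivity
  obtain ⟨R, hR⟩ : ∃ R : ℝ, R = ∑ i, ((k i : ℝ) + 1 + t i) * lb i := ⟨_, rfl⟩
  have hRi : ∀ i, lb i ≤ R := by
    intro i
    have h1 := Finset.single_le_sum (f := fun i => ((k i : ℝ) + 1 + t i) * lb i) (fun j _ => hR0 j) (Finset.mem_univ i)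
    rw [← hR] at h1
    refine le_trans ?_ h1
    have h2 : (0 : ℝ) ≤ k i := Nat.cast_nonneg _
    have h3 : (0 : ℝ) ≤ t i := Nat.cast_nonneg _
    have h4 := hlb2 i
    nlinarith
  obtain ⟨Λ, hΛ⟩ : ∃ Λ : ℝ, Λ = ∑ i, (((k i : ℝ) + 1 + t i) * lb i + lL i) := ⟨_, rfl⟩
  have hΛi : ∀ i, ((k i : ℝ) + 1 + t i) * lb i + lL i ≤ Λ := by
    intro i
    rw [hΛ]
    exact Finset.single_le_sum (f := fun i => ((k i : ℝ) + 1 + t i) * lb i + lL i)
      (fun j _ => add_nonneg (hR0 j) (hlL0 j)) (Finset.mem_univ i)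
  have haΛ : ∀ i, a * (((k i : ℝ) + 1 + t i) * lb i + lL i) ≤ a * Λ := fun i =>
    mul_le_mul_of_nonneg_left (hΛi i) (by linarith)
  obtain ⟨i, hi⟩ := hj u h hSu hh P hP0 hPd (Real.exp (a * Λ)) (fun i j => (hPc i j).trans (Real.exp_le_exp.2 (haΛ i)))
  have h5 : C * (h * Real.exp (a * Λ)) ^ (-c) ≤ Real.exp (a * Λ - (M - lb i)) := by
    refine hi.trans ((hPv i).trans (Real.exp_le_exp.2 ?_))
    have := haΛ i
    have := hML' i
    linarith
  rw [hhe, ← Real.exp_add, ← Real.exp_mul] at h5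
  have h6 : Real.log C + (lh + a * Λ) * -c ≤ a * Λ - (M - lb i) := by
    have h7 := Real.log_le_log (by positivity) h5
    rwa [Real.log_mul hC.ne' (Real.exp_pos _).ne', Real.log_exp, Real.log_exp] at h7
  have h8 : M ≤ g * Λ + R + |Real.log C| + c * lh := by
    rw [hg]
    have := neg_abs_le (Real.log C)
    have := hRi i
    linarith
  -- logarithms of the lengths
  have hlog : ∀ j, lL j ≤ 2 * (M + R) / N + Real.log N := by
    intro j
    have h3 := Real.log_le_sub_one_of_pos (show 0 < ((L j : ℝ) + 1) / N by have := hL0 j; positivity)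
    rw [Real.log_div (by have := hL0 j; positivity) (by positivity), hlLe] at h3
    have h4 : (L j : ℝ) + 1 ≤ 2 * (M + R) := by
      have h9 : 1 * ((L j : ℝ) + 1) ≤ 2 * lb j * (L j + 1) :=
        mul_le_mul_of_nonneg_right (by linarith [hlb2 j]) (by linarith [hL0 j])
      have := hML j
      have := hRi j
      linarith
    have h10 : ((L j : ℝ) + 1) / N ≤ 2 * (M + R) / N := by gcongr
    linarith
  have hΛ2 : Λ ≤ R + n * (2 * (M + R) / N + Real.log N) := by
    rw [hΛ, Finset.sum_add_distrib, ← hR]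
    have h9 : ∑ j, lL j ≤ ∑ _j : κ, (2 * (M + R) / N + Real.log N) := Finset.sum_le_sum fun j _ => hlog j
    rw [Finset.sum_const, Finset.card_univ, nsmul_eq_mul, ← hn] at h9
    linarith
  have hRpos : 1 / 2 ≤ R := by have := hRi i; have := hlb2 i; linarith
  have h9 : g * (n * (2 * (M + R) / N)) ≤ (M + R) / 2 := by
    have h10 : g * (n * (2 * (M + R) / N)) = (n / (n + 1)) * ((M + R) / 2) := by
      rw [hN]
      field_simp
      ring
    rw [h10]
    have h11 : n / (n + 1) ≤ 1 := by rw [div_le_one (by linarith)]; linarith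
    exact mul_le_of_le_one_left (by linarith) h11
  have h10 : g * Λ ≤ g * R + (M + R) / 2 + g * n * Real.log N := by
    calc g * Λ ≤ g * (R + n * (2 * (M + R) / N + Real.log N)) := mul_le_mul_of_nonneg_left hΛ2 (by linarith)
      _ = g * R + g * (n * (2 * (M + R) / N)) + g * n * Real.log N := by ring
      _ ≤ _ := by linarith
  rw [← hR]
  have h11 : M ≤ (2 * g + 3) * R + 2 * (g * n * Real.log N) + 2 * |Real.log C| + 2 * (c * lh) := by linarith
  have h12 : 2 * (g * n * Real.log N) ≤ 4 * (g * n * Real.log N) * R := by nlinarith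
  have h13 : 2 * |Real.log C| ≤ 4 * |Real.log C| * R := by nlinarith [abs_nonneg (Real.log C)]
  have h14 : 2 * (c * lh) ≤ (2 * g + 3 + 4 * (g * n * Real.log N) + 4 * |Real.log C|) * lh := by
    have h15 : 2 * c ≤ 2 * g + 3 + 4 * (g * n * Real.log N) + 4 * |Real.log C| := by
      linarith [abs_nonneg (Real.log C)]
    have h16 := mul_le_mul_of_nonneg_right h15 hlh0
    linarith
  calc M ≤ (2 * g + 3) * R + 2 * (g * n * Real.log N) + 2 * |Real.log C| + 2 * (c * lh) := h11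
    _ ≤ (2 * g + 3) * R + 4 * (g * n * Real.log N) * R + 4 * |Real.log C| * R +
        (2 * g + 3 + 4 * (g * n * Real.log N) + 4 * |Real.log C|) * lh := by linarith
    _ = _ := by ring

/-- the number of the elements of `T` in `[1, L]` -/
def cnt (T : Finset ℕ) (L : ℕ) : ℕ := (T.filter fun t => 1 ≤ t ∧ t ≤ L).card

lemma cnt_mono (T : Finset ℕ) {L L' : ℕ} (h : L ≤ L') : cnt T L ≤ cnt T L' := by
  refine Finset.card_le_card fun t ht => ?_
  rw [Finset.mem_filter] at ht ⊢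
  exact ⟨ht.1, ht.2.1, ht.2.2.trans h⟩

/-- the last element of `T` in `[0, L]` -/
lemma cnt_last (T : Finset ℕ) (L : ℕ) : ∃ t, t ≤ L ∧ (∀ t' ∈ T, t' ≤ L → t' ≤ t) ∧
    (1 ≤ t → cnt T (t - 1) + 1 ≤ cnt T L) := by
  refine ⟨(T.filter fun t => t ≤ L).sup id, ?_, ?_, ?_⟩
  · refine Finset.sup_le fun t ht => ?_
    rw [Finset.mem_filter] at ht
    exact ht.2
  · intro t' ht' htL
    exact Finset.le_sup (f := id) (Finset.mem_filter.2 ⟨ht', htL⟩)
  · intro ht
    obtain ⟨t, hte⟩ : ∃ t, t = (T.filter fun t => t ≤ L).sup id := ⟨_, rfl⟩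
    rw [← hte] at ht ⊢
    have hne : (T.filter fun t => t ≤ L).Nonempty := by
      by_contra hcon
      rw [Finset.not_nonempty_iff_eq_empty] at hcon
      rw [hcon, Finset.sup_empty] at hte
      simp only [Nat.bot_eq_zero] at hte
      omega
    obtain ⟨t₁, ht₁, he⟩ := Finset.exists_mem_eq_sup _ hne (id : ℕ → ℕ)
    rw [← hte] at he
    simp only [id_eq] at he
    rw [← he, Finset.mem_filter] at ht₁
    unfold cnt
    have h1 : t ∉ T.filter fun t' => 1 ≤ t' ∧ t' ≤ t - 1 := by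
      rw [Finset.mem_filter]
      rintro ⟨_, _, h2⟩
      omega
    rw [← Finset.card_insert_of_notMem h1]
    refine Finset.card_le_card fun t' ht' => ?_
    rw [Finset.mem_insert] at ht'
    rcases ht' with rfl | ht'
    · exact Finset.mem_filter.2 ⟨ht₁.1, ht, ht₁.2⟩
    · rw [Finset.mem_filter] at ht' ⊢
      exact ⟨ht'.1, ht'.2.1, by have := ht'.2.2; have := ht₁.2; omega⟩

/-- **Several numbers, several bases, a bounded number of pieces.** -/
theorem piecesH (S : (κ → ℝ) → ℝ → Prop) (hS : JointH S) (r : ℕ) (a : ℝ) (ha1 : 1 ≤ a) : ∃ A : ℝ, 1 ≤ A ∧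
    ∀ (u : κ → ℝ) (h : ℝ), S u h → 1 ≤ h → ∀ b : κ → ℕ, (∀ i, 2 ≤ b i) → ∀ K : ℕ, ∀ L k : κ → ℕ,
      ∀ T : κ → Finset ℕ, ∑ i, cnt (T i) (L i) ≤ K →
      (∀ i L' t, L' ≤ L i → t ≤ L' → (∀ t' ∈ T i, t' ≤ L' → t' ≤ t) → Good a (u i) r (b i) (k i) L' t) →
      ∀ M : ℝ, (∀ i, M ≤ L i * Real.log (b i)) →
      M ≤ A ^ (K + 1) * (∑ i, (k i + 1) * Real.log (b i) + Real.log h) := by
  classical
  obtain ⟨A, hA, hmain⟩ := lastH S hS r a ha1
  obtain ⟨n, hn⟩ : ∃ n : ℝ, n = Fintype.card κ := ⟨_, rfl⟩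
  have hn0 : 0 ≤ n := by rw [hn]; positivity
  refine ⟨(1 + 2 * n) * A, by nlinarith, fun u h hSu hh b hb K => ?_⟩
  obtain ⟨A', hA'⟩ : ∃ A' : ℝ, A' = (1 + 2 * n) * A := ⟨_, rfl⟩
  rw [← hA']
  have hA'1 : 1 ≤ A' := by rw [hA']; nlinarith
  obtain ⟨lb, hlb⟩ : ∃ lb : κ → ℝ, lb = fun i => Real.log (b i) := ⟨_, rfl⟩
  have hlbe : ∀ i, Real.log (b i) = lb i := fun i => by rw [hlb]
  have hlb2 : ∀ i, 1 / 2 < lb i := fun i => by rw [hlb]; exact half_lt_log (hb i)
  have hlb0 : ∀ i, 0 < lb i := fun i => by linarith [hlb2 i]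
  obtain ⟨lh, hlh⟩ : ∃ lh : ℝ, lh = Real.log h := ⟨_, rfl⟩
  have hlh0 : 0 ≤ lh := by rw [hlh]; exact Real.log_nonneg hh
  simp only [← hlh]
  -- truncation
  have hfloor : ∀ (L : κ → ℕ) (M : ℝ), 0 ≤ M → (∀ i, M ≤ L i * lb i) → ∃ L' : κ → ℕ, (∀ i, L' i ≤ L i) ∧
      (∀ i, L' i * lb i ≤ M) ∧ ∀ i, M ≤ L' i * lb i + lb i := by
    intro L M hM hML
    refine ⟨fun i => ⌊M / lb i⌋₊, fun i => ?_, fun i => ?_, fun i => ?_⟩
    · have h1 : ((⌊M / lb i⌋₊ : ℕ) : ℝ) ≤ L i := by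
        refine (Nat.floor_le (div_nonneg hM (hlb0 i).le)).trans ?_
        rw [div_le_iff₀ (hlb0 i)]
        exact hML i
      exact_mod_cast h1
    · rw [← le_div_iff₀ (hlb0 i)]
      exact Nat.floor_le (div_nonneg hM (hlb0 i).le)
    · have h1 := Nat.lt_floor_add_one (M / lb i)
      rw [div_lt_iff₀ (hlb0 i)] at h1
      linarith
  induction K with
  | zero =>
    intro L k T hK hgood M hML
    simp only [hlbe] at hML ⊢
    have hk0 : ∀ i, (0 : ℝ) ≤ k i := fun i => Nat.cast_nonneg _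
    have hRn : 0 ≤ ∑ i, ((k i : ℝ) + 1) * lb i + lh := add_nonneg (Finset.sum_nonneg fun i _ => by
      have := hk0 i
      have := hlb0 i
      positivity) hlh0
    rcases lt_or_ge M 0 with hMn | hM0
    · exact hMn.le.trans (mul_nonneg (by positivity) hRn)
    obtain ⟨L', h1, h2, h3⟩ := hfloor L M hM0 hML
    have hz : ∀ i, cnt (T i) (L i) = 0 := fun i => by
      have := Finset.single_le_sum (f := fun i => cnt (T i) (L i)) (fun _ _ => Nat.zero_le _) (Finset.mem_univ i)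
      omega
    have hm := hmain u h hSu hh b hb L' k (fun _ => 0) (fun i => hgood i (L' i) 0 (h1 i) (Nat.zero_le _) fun t' ht' htL => by
      by_contra hcon
      have h4 := hz i
      unfold cnt at h4
      rw [Finset.card_eq_zero] at h4
      have h5 : t' ∈ (T i).filter fun t => 1 ≤ t ∧ t ≤ L i :=
        Finset.mem_filter.2 ⟨ht', by omega, htL.trans (h1 i)⟩
      rw [h4] at h5
      simp at h5) M hM0 (by simpa only [hlbe] using h2) (by simpa only [hlbe] using h3)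
    simp only [hlbe, Nat.cast_zero, add_zero, ← hlh] at hm
    rw [zero_add, pow_one]
    refine hm.trans (mul_le_mul_of_nonneg_right ?_ hRn)
    rw [hA']; nlinarith
  | succ K ih =>
    intro L k T hK hgood M hML
    simp only [hlbe] at hML ih ⊢
    have hk0 : ∀ i, (0 : ℝ) ≤ k i := fun i => Nat.cast_nonneg _
    have hRi0 : ∀ i, 0 ≤ ((k i : ℝ) + 1) * lb i := fun i => by
      have := hk0 i
      have := hlb0 i
      positivity
    obtain ⟨R₀, hR₀⟩ : ∃ R₀ : ℝ, R₀ = ∑ i, ((k i : ℝ) + 1) * lb i := ⟨_, rfl⟩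
    have hR₀n : 0 ≤ R₀ := by rw [hR₀]; exact Finset.sum_nonneg fun i _ => hRi0 i
    have hRs : ∑ i, lb i ≤ R₀ := by
      rw [hR₀]
      refine Finset.sum_le_sum fun i _ => ?_
      have := hk0 i
      have := hlb0 i
      nlinarith
    have hlbs : ∀ i, lb i ≤ ∑ i, lb i := fun i =>
      Finset.single_le_sum (f := fun i => lb i) (fun j _ => (hlb0 j).le) (Finset.mem_univ i)
    rw [← hR₀]
    obtain ⟨R, hR⟩ : ∃ R : ℝ, R = R₀ + lh := ⟨_, rfl⟩
    rw [← hR]
    have hRn : 0 ≤ R := by rw [hR]; linarith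
    rcases lt_or_ge M 0 with hMn | hM0
    · exact hMn.le.trans (mul_nonneg (by positivity) hRn)
    obtain ⟨L', h1, h2, h3⟩ := hfloor L M hM0 hML
    choose t htL hst htn using fun i => cnt_last (T i) (L' i)
    have hm := hmain u h hSu hh b hb L' k t (fun i => hgood i (L' i) (t i) (h1 i) (htL i) (hst i)) M hM0
      (by simpa only [hlbe] using h2) (by simpa only [hlbe] using h3)
    simp only [hlbe, ← hlh] at hm
    obtain ⟨W, hW⟩ : ∃ W : ℝ, W = A' ^ (K + 1) := ⟨_, rfl⟩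
    have hW1 : 1 ≤ W := by rw [hW]; exact one_le_pow₀ hA'1
    have hWR : R ≤ W * R := le_mul_of_one_le_left hRn hW1
    have hlast : ∀ i, (t i : ℝ) * lb i ≤ 2 * (W * R) := by
      intro i
      have hne : Nonempty κ := ⟨i⟩
      obtain ⟨i₀, hi₀⟩ := Finite.exists_max (fun i => (t i : ℝ) * lb i)
      refine (hi₀ i).trans ?_
      rcases Nat.eq_zero_or_pos (t i₀) with h0 | hpos
      · rw [h0, Nat.cast_zero, zero_mul]; positivity
      · obtain ⟨L'', hL''⟩ : ∃ L'' : κ → ℕ, L'' = Function.update L' i₀ (t i₀ - 1) := ⟨_, rfl⟩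
        have hu1 : L'' i₀ = t i₀ - 1 := by rw [hL'', Function.update_self]
        have hu2 : ∀ i, i ≠ i₀ → L'' i = L' i := fun i hi => by rw [hL'', Function.update_of_ne hi]
        have hle : ∀ i, L'' i ≤ L' i := by
          intro i
          by_cases hi : i = i₀
          · rw [hi, hu1]; have := htL i₀; omega
          · rw [hu2 i hi]
        have hcount : ∑ i, cnt (T i) (L'' i) + 1 ≤ ∑ i, cnt (T i) (L i) := by
          rw [← Finset.add_sum_erase _ _ (Finset.mem_univ i₀),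
            ← Finset.add_sum_erase (Finset.univ : Finset κ) (fun i => cnt (T i) (L i)) (Finset.mem_univ i₀)]
          have h4 : ∑ i ∈ Finset.univ.erase i₀, cnt (T i) (L'' i) ≤ ∑ i ∈ Finset.univ.erase i₀, cnt (T i) (L i) :=
            Finset.sum_le_sum fun i _ => cnt_mono _ ((hle i).trans (h1 i))
          have h5 := htn i₀ hpos
          have h6 := cnt_mono (T i₀) (h1 i₀)
          rw [hu1]
          omega
        have h7 := ih L'' k T (by omega) (fun i L' t hL' => hgood i L' t (hL'.trans ((hle i).trans (h1 i))))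
          ((t i₀ : ℝ) * lb i₀ - ∑ i, lb i) (fun i => by
            by_cases hi : i = i₀
            · rw [hi, hu1, Nat.cast_sub hpos]
              have := hlbs i₀
              push_cast
              linarith
            · rw [hu2 i hi]
              have h8 : (t i₀ : ℝ) * lb i₀ ≤ L' i₀ * lb i₀ :=
                mul_le_mul_of_nonneg_right (by exact_mod_cast htL i₀) (hlb0 i₀).le
              have := h2 i₀
              have := h3 i
              have := hlbs i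
              linarith)
        rw [← hR₀, ← hR, ← hW] at h7
        linarith
    have hsum : ∑ i, ((k i : ℝ) + 1 + t i) * lb i ≤ R₀ + n * (2 * (W * R)) := by
      have h4 : ∀ i, ((k i : ℝ) + 1 + t i) * lb i = ((k i : ℝ) + 1) * lb i + t i * lb i := fun i => by ring
      simp only [h4]
      rw [Finset.sum_add_distrib, ← hR₀]
      have h5 : ∑ i, (t i : ℝ) * lb i ≤ ∑ _i : κ, 2 * (W * R) := Finset.sum_le_sum fun i _ => hlast i
      rw [Finset.sum_const, Finset.card_univ, nsmul_eq_mul, ← hn] at h5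
      linarith
    calc M ≤ A * (∑ i, ((k i : ℝ) + 1 + t i) * lb i + lh) := hm
      _ ≤ A * (R₀ + n * (2 * (W * R)) + lh) := mul_le_mul_of_nonneg_left (by linarith) (by linarith)
      _ ≤ A * (W * R + n * (2 * (W * R))) := mul_le_mul_of_nonneg_left (by linarith) (by linarith)
      _ = A' ^ (K + 1 + 1) * R := by rw [hA'] at hW ⊢; rw [pow_succ _ (K + 1), ← hW]; ring

end Pool.Agent.Run7.h168.Lin
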