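import Pool.Agent.Run7.h168.Lin.Abs
import Pool.Agent.TH456.TM.Inst

/-!
# Integer linear forms in arbitrary real numbers and one number with a transcendence measure
-/

set_option autoImplicit false

namespace Pool.Agent.Run7.h168.Lin

open Finset Polynomial Pool.Agent.R356 Pool.Agent.N743.SS Pool.Agent.TH456.TM Pool.Agent.Run7.h168.Mult

/-- `n+1` numbers `u_i ∈ [-1, 1]` with `m_i u_i = a_{i0} x + ∑_j a_{ij} t_j + c_i`, where the `t_j` are any
numbers in `[-1, 1]` and the determinant of the `a_{ij}` is not zero; the size is `h` -/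
def Fam (x : ℝ) (n : ℕ) (u : Fin (n + 1) → ℝ) (h : ℝ) : Prop :=
  ∃ (a : Matrix (Fin (n + 1)) (Fin (n + 1)) ℤ) (t : Fin n → ℝ) (c m : Fin (n + 1) → ℤ), a.det ≠ 0 ∧
    (∀ i j, |(a i j : ℝ)| ≤ h) ∧ (∀ i, 1 ≤ m i ∧ (m i : ℝ) ≤ h) ∧ (∀ j, |t j| ≤ 1) ∧ (∀ i, |u i| ≤ 1) ∧
    ∀ i, m i * u i = a i 0 * x + ∑ j : Fin n, a i j.succ * t j + c i

/-- the elimination of the `t_j` -/
lemma cofactor {n : ℕ} (a : Matrix (Fin (n + 1)) (Fin (n + 1)) ℤ) (x : ℝ) (t : Fin n → ℝ) (c m : Fin (n + 1) → ℤ)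
    (u : Fin (n + 1) → ℝ) (h : ∀ i, m i * u i = a i 0 * x + ∑ j : Fin n, a i j.succ * t j + c i) :
    (a.det : ℝ) * x + ∑ i, (a.adjugate 0 i : ℝ) * c i - ∑ i, (a.adjugate 0 i : ℝ) * m i * u i = 0 := by
  classical
  obtain ⟨v, hv⟩ : ∃ v : Fin (n + 1) → ℝ, v = Fin.cons x t := ⟨_, rfl⟩
  have hv0 : v 0 = x := by rw [hv]; rfl
  have hvs : ∀ j : Fin n, v j.succ = t j := fun j => by rw [hv]; rfl
  have h1 : ∀ i, (m i : ℝ) * u i = ∑ j, (a i j : ℝ) * v j + c i := by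
    intro i
    rw [h i, Fin.sum_univ_succ, hv0]
    simp only [hvs]
  have h2 : ∑ i, (a.adjugate 0 i : ℝ) * (∑ j, (a i j : ℝ) * v j) = a.det * x := by
    have h3 : ∀ j, ∑ i, (a.adjugate 0 i : ℝ) * (a i j : ℝ) = if (0 : Fin (n + 1)) = j then (a.det : ℝ) else 0 := by
      intro j
      have h4 := congrFun (congrFun (Matrix.adjugate_mul a) 0) j
      rw [Matrix.mul_apply, Matrix.smul_apply, Matrix.one_apply] at h4
      have h5 := congrArg (fun z : ℤ => (z : ℝ)) h4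
      simp only [smul_eq_mul, mul_ite, mul_one, mul_zero, Int.cast_sum, Int.cast_mul] at h5
      rw [h5]
      split_ifs
      · rfl
      · exact Int.cast_zero
    calc ∑ i, (a.adjugate 0 i : ℝ) * (∑ j, (a i j : ℝ) * v j)
        = ∑ i, ∑ j, (a.adjugate 0 i : ℝ) * (a i j : ℝ) * v j := by
          refine Finset.sum_congr rfl fun i _ => ?_
          rw [Finset.mul_sum]
          exact Finset.sum_congr rfl fun j _ => by ring
      _ = ∑ j, (∑ i, (a.adjugate 0 i : ℝ) * (a i j : ℝ)) * v j := by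
          rw [Finset.sum_comm]
          exact Finset.sum_congr rfl fun j _ => by rw [Finset.sum_mul]
      _ = a.det * x := by
          simp only [h3, ite_mul, zero_mul]
          rw [Finset.sum_ite_eq, if_pos (Finset.mem_univ _), hv0]
  have h6 : ∑ i, (a.adjugate 0 i : ℝ) * m i * u i =
      ∑ i, (a.adjugate 0 i : ℝ) * (∑ j, (a i j : ℝ) * v j) + ∑ i, (a.adjugate 0 i : ℝ) * c i := by
    rw [← Finset.sum_add_distrib]
    refine Finset.sum_congr rfl fun i _ => ?_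
    rw [mul_assoc, h1 i]
    ring
  rw [h6, h2]
  ring

lemma adjugate_le {n : ℕ} (a : Matrix (Fin (n + 1)) (Fin (n + 1)) ℤ) (h : ℝ) (hh : 1 ≤ h) (ha : ∀ i j, |(a i j : ℝ)| ≤ h)
    (i j : Fin (n + 1)) : |((a.adjugate i j : ℤ) : ℝ)| ≤ (n + 1).factorial * h ^ (n + 1) := by
  classical
  rw [Matrix.adjugate_apply]
  refine isLen_int.det (n + 1) _ h fun k l => ?_
  rw [Matrix.updateRow_apply]
  split_ifs
  · rw [Pi.single_apply]
    split_ifs
    · simpa using hh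
    · simp only [Int.cast_zero, abs_zero]; linarith
  · exact ha k l

/-- **Joint measure of linear forms.** -/
theorem jointH_fam (x : ℝ) (hx : MeasT (x : ℂ)) (n : ℕ) : JointH (Fam x n) := by
  classical
  intro D
  obtain ⟨g, C₁, hC₁, hel⟩ := elim (n + 1) D 1 1 le_rfl
  obtain ⟨κ₀, c₀, hκ₀, hc₀, hmeas⟩ := hx g
  obtain ⟨s, hs⟩ : ∃ s : ℝ, s = (n + 1).factorial := ⟨_, rfl⟩
  have hs1 : 1 ≤ s := by rw [hs]; exact_mod_cast Nat.factorial_pos _
  obtain ⟨K, hK⟩ : ∃ K : ℝ, K = s * ((1 + |x|) + (n + 1) * (2 + |x| + n)) := ⟨_, rfl⟩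
  have hax := abs_nonneg x
  have hn0 : (0 : ℝ) ≤ n := Nat.cast_nonneg n
  have hK1 : 1 ≤ K := by
    rw [hK]
    have : 1 ≤ (1 + |x|) + ((n : ℝ) + 1) * (2 + |x| + n) := by nlinarith
    nlinarith
  obtain ⟨W, hW⟩ : ∃ W : ℝ, W = C₁ * K ^ g := ⟨_, rfl⟩
  have hW1 : 1 ≤ W := by rw [hW]; exact one_le_mul_of_one_le_of_one_le hC₁ (one_le_pow₀ hK1)
  obtain ⟨γ, hγ⟩ : ∃ γ : ℝ, γ = ((n + 2 : ℕ) * g : ℕ) * (κ₀ + 1) := ⟨_, rfl⟩
  have hγ0 : 0 ≤ γ := by rw [hγ]; positivity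
  refine ⟨γ + 1, c₀ / (2 * W ^ (κ₀ + 1)), by linarith, by positivity, ?_⟩
  rintro u h ⟨a, t, c, m, hdet, hah, hm, ht, hu, hrel⟩ hh P hP hPD H hPH
  by_contra hcon
  push Not at hcon
  have hH : 1 ≤ H := one_le_of_coeff (P 0) (hP _) H (hPH _)
  have hH0 : 0 < H := by linarith
  have hh0 : 0 < h := by linarith
  obtain ⟨Z, hZ⟩ : ∃ Z : ℝ, Z = h * H := ⟨_, rfl⟩
  have hZ1 : 1 ≤ Z := by rw [hZ]; exact one_le_mul_of_one_le_of_one_le hh hH
  have hZ0 : 0 < Z := by linarith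
  rw [← hZ] at hcon
  obtain ⟨ε, hε⟩ : ∃ ε : ℝ, ε = c₀ / (2 * W ^ (κ₀ + 1)) * Z ^ (-(γ + 1)) := ⟨_, rfl⟩
  have hε0 : 0 < ε := by rw [hε]; positivity
  rw [← hε] at hcon
  -- sizes
  obtain ⟨φ, hφ⟩ : ∃ φ : ℤ[X] →+* ℂ, φ = (aeval (x : ℂ) : ℤ[X] →ₐ[ℤ] ℂ).toRingHom := ⟨_, rfl⟩
  have hφX : φ X = (x : ℂ) := by rw [hφ]; exact aeval_X _
  have hφC : ∀ z : ℤ, φ (C z) = (z : ℂ) := fun z => by rw [hφ]; exact (aeval_C _ _).trans (by simp)
  obtain ⟨ℓi, hℓi⟩ : ∃ ℓi : ℤ → ℝ, ℓi = fun z : ℤ => |(z : ℝ)| := ⟨_, rfl⟩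
  have hℓiL : IsLen ℓi := by rw [hℓi]; exact isLen_int
  obtain ⟨ℓ, hℓ⟩ : ∃ ℓ : ℤ[X] → ℝ, ℓ = fun z => max (len ℓi z) ‖φ z‖ := ⟨_, rfl⟩
  have hℓL : IsLen ℓ := by rw [hℓ]; exact isLen_max hℓiL.poly (isLen_comap φ)
  have hℓ1 : ∀ z, len ℓi z ≤ ℓ z := fun z => by rw [hℓ]; exact le_max_left _ _
  have hℓ2 : ∀ z, ‖φ z‖ ≤ ℓ z := fun z => by rw [hℓ]; exact le_max_right _ _
  have hℓC : ∀ z : ℤ, ℓ (C z) ≤ |(z : ℝ)| := by
    intro z
    rw [hℓ]
    refine max_le ?_ ?_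
    · show len ℓi (C z) ≤ _
      rw [len_C hℓiL, hℓi]
    · show ‖φ (C z)‖ ≤ _
      rw [hφC, Complex.norm_intCast]
  have hℓX : ℓ X ≤ 1 + |x| := by
    rw [hℓ]
    refine max_le ?_ ?_
    · show len ℓi X ≤ _
      rw [len_eq hℓiL _ 2 (lt_of_le_of_lt natDegree_X_le (by norm_num)), Finset.sum_range_succ,
        Finset.sum_range_one, coeff_X_zero, coeff_X_one, hℓi]
      simp only [Int.cast_zero, abs_zero, Int.cast_one, abs_one]
      linarith
    · show ‖φ X‖ ≤ _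
      rw [hφX, Complex.norm_real, Real.norm_eq_abs]
      linarith
  have hfil₀ : IsFil (fun _ : ℕ => (⊤ : AddSubgroup ℤ)) :=
    { one := AddSubgroup.mem_top _
      mono := fun _ _ _ => le_rfl
      mul := fun _ _ _ _ _ _ => AddSubgroup.mem_top _ }
  -- the relation
  obtain ⟨lam, hlam⟩ : ∃ lam : Fin (n + 1) → ℤ, lam = fun i => a.adjugate 0 i := ⟨_, rfl⟩
  have hlame : ∀ i, a.adjugate 0 i = lam i := fun i => by rw [hlam]
  have hcof := cofactor a x t c m u hrel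
  simp only [hlame] at hcof
  have hlamB : ∀ i, |(lam i : ℝ)| ≤ s * h ^ (n + 1) := fun i => by
    rw [← hlame, hs]; exact adjugate_le a h hh hah 0 i
  have hdetB : |(a.det : ℝ)| ≤ s * h ^ (n + 1) := by
    rw [hs]; exact isLen_int.det (n + 1) a h hah
  obtain ⟨dt, hdt⟩ : ∃ dt : ℤ, dt = a.det := ⟨_, rfl⟩
  rw [← hdt] at hcof hdetB hdet
  have hcB : ∀ i, |(c i : ℝ)| ≤ h * (1 + |x| + n) := by
    intro i
    have h1 : (c i : ℝ) = m i * u i - a i 0 * x - ∑ j : Fin n, a i j.succ * t j := by linarith [hrel i]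
    rw [h1]
    have h2 : |(m i : ℝ) * u i| ≤ h := by
      rw [abs_mul]
      have h3 : |(m i : ℝ)| ≤ h := by
        rw [abs_of_nonneg (by exact_mod_cast (by have := (hm i).1; omega : 0 ≤ m i))]
        exact (hm i).2
      calc |(m i : ℝ)| * |u i| ≤ h * 1 := mul_le_mul h3 (hu i) (abs_nonneg _) hh0.le
        _ = h := mul_one _
    have h3 : |(a i 0 : ℝ) * x| ≤ h * |x| := by
      rw [abs_mul]; exact mul_le_mul_of_nonneg_right (hah i 0) hax
    have h4 : |∑ j : Fin n, (a i j.succ : ℝ) * t j| ≤ n * h := by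
      refine (Finset.abs_sum_le_sum_abs _ _).trans ?_
      refine (Finset.sum_le_sum (g := fun _ => h) fun j _ => ?_).trans ?_
      · rw [abs_mul]
        calc |(a i j.succ : ℝ)| * |t j| ≤ h * 1 := mul_le_mul (hah _ _) (ht j) (abs_nonneg _) hh0.le
          _ = h := mul_one _
      · rw [Finset.sum_const, Finset.card_univ, Fintype.card_fin, nsmul_eq_mul]
    calc |(m i : ℝ) * u i - a i 0 * x - ∑ j : Fin n, a i j.succ * t j|
        ≤ |(m i : ℝ) * u i| + |(a i 0 : ℝ) * x| + |∑ j : Fin n, (a i j.succ : ℝ) * t j| := by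
          refine (abs_sub _ _).trans ?_
          exact add_le_add (abs_sub _ _) le_rfl
      _ ≤ h + h * |x| + n * h := by linarith
      _ = _ := by ring
  obtain ⟨k, hk⟩ : ∃ k : ℤ, k = ∑ i, lam i * c i := ⟨_, rfl⟩
  have hkB : |(k : ℝ)| ≤ (n + 1) * (s * h ^ (n + 1) * (h * (1 + |x| + n))) := by
    rw [hk]
    push_cast
    refine (Finset.abs_sum_le_sum_abs _ _).trans ?_
    refine (Finset.sum_le_sum (g := fun _ => s * h ^ (n + 1) * (h * (1 + |x| + n))) fun i _ => ?_).trans ?_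
    · rw [abs_mul]
      exact mul_le_mul (hlamB i) (hcB i) (abs_nonneg _) (by positivity)
    · rw [Finset.sum_const, Finset.card_univ, Fintype.card_fin, nsmul_eq_mul]
      push_cast
      exact le_rfl
  obtain ⟨a', ha'⟩ : ∃ a' : Option (Fin (n + 1)) → ℤ[X],
    a' = fun o => o.elim (C dt * X + C k) (fun i => C (-(lam i * m i))) := ⟨_, rfl⟩
  obtain ⟨e', he'⟩ : ∃ e' : Option (Fin (n + 1)) → Fin (n + 1) → ℕ,
    e' = fun o => o.elim 0 (fun i => Pi.single i 1) := ⟨_, rfl⟩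
  have hprod : ∀ (y : Fin (n + 1) → ℂ) (i : Fin (n + 1)), ∏ l, y l ^ (Pi.single i 1 : Fin (n + 1) → ℕ) l = y i := by
    intro y i
    rw [Finset.prod_eq_single i]
    · rw [Pi.single_eq_same, pow_one]
    · intro l _ hl
      rw [Pi.single_eq_of_ne hl, pow_zero]
    · intro h1; exact absurd (Finset.mem_univ _) h1
  have hval : ∀ (ρ : ℤ[X] →+* ℂ) (z : ℂ), ρ X = z → (∀ q : ℤ, ρ (C q) = (q : ℂ)) → ∀ (y : Fin (n + 1) → ℂ),
      ∑ o, ρ (a' o) * ∏ i, y i ^ e' o i = (dt : ℂ) * z + k - ∑ i, (lam i : ℂ) * m i * y i := by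
    intro ρ z h1 h2 y
    rw [Fintype.sum_option, ha', he']
    simp only [Option.elim_none, Option.elim_some, Pi.zero_apply, pow_zero, Finset.prod_const_one, mul_one,
      hprod, map_add, map_mul, h1, h2]
    push_cast
    simp only [neg_mul, Finset.sum_neg_distrib]
    ring
  obtain ⟨Y, hY⟩ : ∃ Y : ℝ, Y = K * Z ^ (n + 2) := ⟨_, rfl⟩
  have hZp : 1 ≤ Z ^ (n + 2) := one_le_pow₀ hZ1
  have hY1 : 1 ≤ Y := by rw [hY]; exact one_le_mul_of_one_le_of_one_le hK1 hZp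
  have hhY : h ^ (n + 2) ≤ Z ^ (n + 2) := pow_le_pow_left₀ hh0.le (by rw [hZ]; exact le_mul_of_one_le_right hh0.le hH) _
  have hHY : H ≤ Y := by
    have h1 : H ≤ Z := by rw [hZ]; exact le_mul_of_one_le_left hH0.le hh
    have h2 : Z ≤ Z ^ (n + 2) := le_self_pow₀ hZ1 (by omega)
    have h3 : Z ^ (n + 2) ≤ Y := by rw [hY]; exact le_mul_of_one_le_left (by positivity) hK1
    linarith
  obtain ⟨N, hNf, hNl, hNs, hNn⟩ := hel ℤ[X] ℓ (filX fun _ => ⊤) φ hℓL hℓ2 hfil₀.poly (Option (Fin (n + 1))) a' e'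
    (fun o i => by
      rw [he']
      cases o with
      | none => exact Nat.zero_le _
      | some j =>
        show (Pi.single j 1 : Fin (n + 1) → ℕ) i ≤ 1
        rw [Pi.single_apply]
        split_ifs <;> omega)
    (fun o => by
      rw [ha']
      cases o with
      | none =>
        refine ⟨?_, fun j => AddSubgroup.mem_top _⟩
        show (C dt * X + C k).natDegree ≤ 1
        compute_degree
      | some i =>
        refine ⟨?_, fun j => AddSubgroup.mem_top _⟩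
        show (C (-(lam i * m i))).natDegree ≤ 1
        rw [natDegree_C]; omega)
    P hP hPD Y hY1 (by
      rw [Fintype.sum_option]
      have h1 : ℓ (a' none) ≤ s * h ^ (n + 1) * (1 + |x|) + (n + 1) * (s * h ^ (n + 1) * (h * (1 + |x| + n))) := by
        rw [ha']
        show ℓ (C dt * X + C k) ≤ _
        refine (hℓL.add _ _).trans (add_le_add ((hℓL.mul _ _).trans ?_) ((hℓC k).trans hkB))
        exact mul_le_mul ((hℓC _).trans hdetB) hℓX (hℓL.nonneg _) (by positivity)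
      have h2 : ∀ i, ℓ (a' (some i)) ≤ s * h ^ (n + 1) * h := by
        intro i
        rw [ha']
        show ℓ (C (-(lam i * m i))) ≤ _
        refine (hℓC _).trans ?_
        push_cast
        rw [abs_neg, abs_mul]
        refine mul_le_mul (hlamB i) ?_ (abs_nonneg _) (by positivity)
        rw [abs_of_nonneg (by exact_mod_cast (by have := (hm i).1; omega : 0 ≤ m i))]
        exact (hm i).2
      have h3 : ∑ i, ℓ (a' (some i)) ≤ (n + 1) * (s * h ^ (n + 1) * h) := by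
        refine (Finset.sum_le_sum (g := fun _ => s * h ^ (n + 1) * h) fun i _ => h2 i).trans ?_
        rw [Finset.sum_const, Finset.card_univ, Fintype.card_fin, nsmul_eq_mul]
        push_cast
        exact le_rfl
      have h4 : s * h ^ (n + 1) * (1 + |x|) ≤ s * h ^ (n + 2) * (1 + |x|) := by
        have : h ^ (n + 1) ≤ h ^ (n + 2) := pow_le_pow_right₀ hh (by omega)
        gcongr
      calc ℓ (a' none) + ∑ i, ℓ (a' (some i))
          ≤ s * h ^ (n + 2) * (1 + |x|) + (n + 1) * (s * h ^ (n + 1) * (h * (1 + |x| + n))) +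
            (n + 1) * (s * h ^ (n + 1) * h) := by linarith
        _ = K * h ^ (n + 2) := by rw [hK]; ring
        _ ≤ Y := by rw [hY]; exact mul_le_mul_of_nonneg_left hhY (by linarith))
    (fun i k => (hPH i k).trans hHY) (fun i => ((u i : ℝ) : ℂ)) (fun i => by
      rw [Complex.norm_real, Real.norm_eq_abs]; exact hu i)
  -- the value
  have hN1 : ‖φ N‖ ≤ C₁ * Y ^ g * ε := by
    refine hNs ε ?_ fun i => ?_
    · rw [hval φ x hφX hφC]
      have h1 : (dt : ℂ) * (x : ℂ) + k - ∑ i, (lam i : ℂ) * m i * ((u i : ℝ) : ℂ) =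
          ((((dt : ℝ) * x + ∑ i, (lam i : ℝ) * c i - ∑ i, (lam i : ℝ) * m i * u i : ℝ)) : ℂ) := by
        rw [hk]
        push_cast
        ring
      rw [h1, hcof, Complex.ofReal_zero, norm_zero]
      exact hε0.le
    · have h1 : aeval ((u i : ℝ) : ℂ) (P i) = ((aeval (u i) (P i) : ℝ) : ℂ) :=
        (map_aeval_int (algebraMap ℝ ℂ) (u i) (P i)).symm
      rw [h1, Complex.norm_real, Real.norm_eq_abs]
      exact (hcon i).le
  have hN0 : N ≠ 0 := by
    have hfin : {β : Fin (n + 1) → ℂ | ∀ i, aeval (β i) (P i) = 0}.Finite := by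
      have h1 : {β : Fin (n + 1) → ℂ | ∀ i, aeval (β i) (P i) = 0} =
          Set.pi Set.univ (fun i => {z : ℂ | aeval z (P i) = 0}) := by
        ext β; simp
      rw [h1]
      refine Set.Finite.pi fun i => ?_
      have hinj : Function.Injective (Int.castRingHom ℂ) := Int.cast_injective
      refine (Multiset.finite_toSet ((P i).map (Int.castRingHom ℂ)).roots).subset fun z hz => ?_
      show z ∈ ((P i).map (Int.castRingHom ℂ)).roots
      rw [mem_roots ((Polynomial.map_ne_zero_iff hinj).2 (hP i)), IsRoot.def, eval_map]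
      have hz' : aeval z (P i) = 0 := hz
      rw [aeval_def] at hz'
      exact hz'
    obtain ⟨f, hf⟩ : ∃ f : (Fin (n + 1) → ℂ) → ℂ, f = fun y => (∑ i, (lam i : ℂ) * m i * y i - k) / dt := ⟨_, rfl⟩
    obtain ⟨z, hz⟩ := (hfin.image f).infinite_compl.nonempty
    obtain ⟨ρ, hρ⟩ : ∃ ρ : ℤ[X] →+* ℂ, ρ = (aeval z : ℤ[X] →ₐ[ℤ] ℂ).toRingHom := ⟨_, rfl⟩
    have hρX : ρ X = z := by rw [hρ]; exact aeval_X _
    have hρC : ∀ q : ℤ, ρ (C q) = (q : ℂ) := fun q => by rw [hρ]; exact (aeval_C _ _).trans (by simp)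
    have h1 := hNn ρ fun β hβ => by
      rw [hval ρ z hρX hρC β]
      intro h0
      apply hz
      refine ⟨β, hβ, ?_⟩
      rw [hf]
      have hd : (dt : ℂ) ≠ 0 := by exact_mod_cast hdet
      rw [div_eq_iff hd]
      linear_combination -h0
    rintro rfl
    exact h1 (map_zero _)
  have hlenN : ℓ N ≤ C₁ * Y ^ g := hNl
  have hBN1 : 1 ≤ C₁ * Y ^ g := one_le_mul_of_one_le_of_one_le hC₁ (one_le_pow₀ hY1)
  have h1 := hmeas N hN0 hNf.1 (C₁ * Y ^ g) hBN1 fun j => by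
    have h2 := le_len hℓiL N j
    have h3 : ℓi (N.coeff j) = |((N.coeff j : ℤ) : ℝ)| := by rw [hℓi]
    rw [h3] at h2
    exact h2.trans ((hℓ1 N).trans hlenN)
  have h2 : ‖aeval (x : ℂ) N‖ ≤ C₁ * Y ^ g * ε := by
    have : φ N = aeval (x : ℂ) N := by rw [hφ]; rfl
    rw [← this]; exact hN1
  have hB0 : 0 < C₁ * Y ^ g := by linarith
  have h3 : c₀ ≤ (C₁ * Y ^ g) ^ (κ₀ + 1) * ε := by
    calc c₀ ≤ (C₁ * Y ^ g) ^ κ₀ * ‖aeval (x : ℂ) N‖ := h1
      _ ≤ (C₁ * Y ^ g) ^ κ₀ * (C₁ * Y ^ g * ε) := mul_le_mul_of_nonneg_left h2 (by positivity)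
      _ = _ := by rw [Real.rpow_add hB0, Real.rpow_one]; ring
  have h4 : C₁ * Y ^ g = W * Z ^ ((n + 2) * g) := by
    rw [hW, hY, mul_pow, ← pow_mul]; ring
  have h5 : (C₁ * Y ^ g) ^ (κ₀ + 1) = W ^ (κ₀ + 1) * Z ^ γ := by
    rw [h4, Real.mul_rpow (by linarith) (by positivity), ← Real.rpow_natCast Z, ← Real.rpow_mul hZ0.le, hγ]
  have h6 : (C₁ * Y ^ g) ^ (κ₀ + 1) * ε = c₀ / 2 * (Z ^ γ * Z ^ (-(γ + 1))) := by
    rw [h5, hε]
    have : W ^ (κ₀ + 1) ≠ 0 := by positivity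
    field_simp
  have h7 : Z ^ γ * Z ^ (-(γ + 1)) ≤ 1 := by
    rw [← Real.rpow_add hZ0]
    exact Real.rpow_le_one_of_one_le_of_nonpos hZ1 (by linarith)
  rw [h6] at h3
  nlinarith

end Pool.Agent.Run7.h168.Lin
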